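import Pool.Agent.W564.MM.Defs2

set_option autoImplicit false

open MeasureTheory Filter Topology Finset

namespace Pool.Agent.W806.MM

open Pool.Agent.W564.MM

instance instP1 : IsProbabilityMeasure (volume : Measure T1) := ⟨UnitAddCircle.measure_univ⟩

instance instP2 : IsProbabilityMeasure (volume : Measure (T1 × T1)) :=
  inferInstanceAs (IsProbabilityMeasure ((volume : Measure T1).prod volume))

instance instPr (r : ℕ) : IsProbabilityMeasure (volume : Measure (Fin r → T1)) :=
  inferInstanceAs (IsProbabilityMeasure (Measure.pi fun _ : Fin r => (volume : Measure T1)))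

lemma int_fourier (n : ℤ) (hn : n ≠ 0) : ∫ x : T1, (fourier n x : ℂ) = 0 :=
  integral_eq_zero_of_add_right_eq_neg (μ := (volume : Measure T1))
    (fourier_add_half_inv_index hn (by norm_num))

lemma int_m (r : ℕ) (n : Fin r → ℤ) (hn : n ≠ 0) :
    ∫ z : Fin r → T1, UnitAddTorus.mFourier n z = 0 := by
  obtain ⟨i, hi⟩ : ∃ i, n i ≠ 0 := by
    by_contra h
    push Not at h
    exact hn (funext h)
  have h1 : ∀ z : Fin r → T1, UnitAddTorus.mFourier n z = ∏ i, (fourier (n i) (z i) : ℂ) :=
    fun z => rfl
  simp_rw [h1]
  rw [integral_fintype_prod_volume_eq_prod (fun i (x : T1) => (fourier (n i) x : ℂ))]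
  exact Finset.prod_eq_zero (Finset.mem_univ i) (int_fourier _ hi)

theorem joint (h1 : S_BAS) (h2 : S_KEY) : S_JOINT := by
  intro r F
  have hxc : ∀ (a : ℝ) (i : ℕ), Continuous (xx a i) := h1.2.2.2.2.1
  have hmp : ∀ (a : ℝ) (i : ℕ), MeasurePreserving (xx a i) (volume : Measure (T1 × T1)) volume :=
    h1.2.2.2.2.2.2
  have hxp : ∀ a : ℝ, Continuous (fun p : T1 × T1 => fun i : Fin r => xx a i p) := fun a =>
    continuous_pi fun i => hxc a i
  have hint : ∀ (G : C(Fin r → T1, ℂ)) (a : ℝ), Integrable (fun p : T1 × T1 =>
      G (fun i => xx a i p)) volume := by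
    intro G a
    refine Integrable.of_bound ((G.continuous.comp (hxp a)).aestronglyMeasurable) ‖G‖
      (Eventually.of_forall fun p => ?_)
    exact G.norm_coe_le_norm _
  have hint2 : ∀ (G : C(Fin r → T1, ℂ)), Integrable (fun z : Fin r → T1 => G z) volume := by
    intro G
    refine Integrable.of_bound (G.continuous.aestronglyMeasurable) ‖G‖
      (Eventually.of_forall fun p => ?_)
    exact G.norm_coe_le_norm _
  -- characters
  have hch : ∀ n : Fin r → ℤ, Tendsto (fun a : ℝ => ∫ p : T1 × T1,
      UnitAddTorus.mFourier n (fun i => xx a i p)) (cocompact ℝ)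
      (𝓝 (∫ z : Fin r → T1, UnitAddTorus.mFourier n z)) := by
    intro n
    by_cases hn : n = 0
    · subst hn
      simp only [UnitAddTorus.mFourier_zero, ContinuousMap.one_apply, integral_const,
        probReal_univ, one_smul]
      exact tendsto_const_nhds
    · rw [int_m r n hn]
      obtain ⟨i0, hi0⟩ : ∃ i, n i ≠ 0 := by
        by_contra h
        push Not at h
        exact hn (funext h)
      let s : Finset (Fin r) := univ.filter fun i => n i ≠ 0
      have hs : s.Nonempty := ⟨i0, by simp [s, hi0]⟩
      let j := s.max' hs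
      have hj : n j ≠ 0 := (Finset.mem_filter.1 (s.max'_mem hs)).2
      have hjm : ∀ i : Fin r, j < i → n i = 0 := by
        intro i hi
        by_contra hne
        exact absurd (s.le_max' i (by simp [s, hne])) (not_le.2 hi)
      let c : ℕ → ℤ := fun i => if h : i < r then n ⟨i, h⟩ else 0
      have hcj : c (j : ℕ) ≠ 0 := by
        simp only [c, j.2, dif_pos]
        exact hj
      have hc0 : ∀ i : ℕ, (j : ℕ) < i → c i = 0 := by
        intro i hi
        simp only [c]
        split_ifs with h
        · exact hjm ⟨i, h⟩ hi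
        · rfl
      have hprod : ∀ (a : ℝ) (p : T1 × T1), UnitAddTorus.mFourier n (fun i => xx a i p) =
          ∏ i ∈ Finset.range ((j : ℕ) + 1), (fourier (c i) (xx a i p) : ℂ) := by
        intro a p
        have e1 : UnitAddTorus.mFourier n (fun i => xx a i p) =
            ∏ i : Fin r, (fourier (c i) (xx a i p) : ℂ) := by
          show ∏ i : Fin r, (fourier (n i) (xx a i p) : ℂ) = _
          refine Finset.prod_congr rfl fun i _ => ?_
          have : c (i : ℕ) = n i := by simp only [c, i.2, dif_pos]
          rw [this]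
        rw [e1, Fin.prod_univ_eq_prod_range (fun i => (fourier (c i) (xx a i p) : ℂ)) r]
        symm
        apply Finset.prod_subset
        · intro i hi
          rw [Finset.mem_range] at hi ⊢
          have := j.2
          omega
        · intro i _ hi
          rw [Finset.mem_range] at hi
          rw [hc0 i (by omega), fourier_zero]
      simp_rw [hprod]
      rcases Nat.eq_zero_or_pos (j : ℕ) with h0 | hpos
      · have e2 : ∀ a : ℝ, ∫ p : T1 × T1, ∏ i ∈ Finset.range ((j : ℕ) + 1),
            (fourier (c i) (xx a i p) : ℂ) = 0 := by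
          intro a
          rw [h0]
          simp only [zero_add, Finset.range_one, Finset.prod_singleton]
          have e3 := integral_map (μ := (volume : Measure (T1 × T1))) (φ := xx a 0)
            (f := fun x : T1 => (fourier (c 0) x : ℂ)) (hxc a 0).aemeasurable
            (fourier (T := 1) (c 0)).continuous.aestronglyMeasurable
          rw [← e3, (hmp a 0).map_eq]
          exact int_fourier _ (by rw [h0] at hcj; exact hcj)
        simp_rw [e2]
        exact tendsto_const_nhds
      · rw [Metric.tendsto_nhds]
        intro ε hε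
        obtain ⟨a₀, ha₀⟩ := h2 (j : ℕ) hpos c hcj (ε / 2) (by positivity)
        have hev : ∀ᶠ a : ℝ in cocompact ℝ, a₀ ≤ ‖a‖ :=
          (tendsto_norm_cocompact_atTop).eventually_ge_atTop a₀
        filter_upwards [hev] with a ha
        rw [dist_zero_right]
        exact lt_of_le_of_lt (ha₀ a ha) (by linarith)
  -- span
  have hsp : ∀ G ∈ Submodule.span ℂ (Set.range (UnitAddTorus.mFourier (d := Fin r))),
      Tendsto (fun a : ℝ => ∫ p : T1 × T1, G (fun i => xx a i p)) (cocompact ℝ)
        (𝓝 (∫ z, G z)) := by
    intro G hG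
    induction hG using Submodule.span_induction with
    | mem x hx =>
      obtain ⟨n, rfl⟩ := hx
      exact hch n
    | zero =>
      simp only [ContinuousMap.zero_apply, integral_zero]
      exact tendsto_const_nhds
    | add x y _ _ hx hy =>
      have e1 : ∀ a : ℝ, ∫ p : T1 × T1, (x + y) (fun i => xx a i p) =
          (∫ p : T1 × T1, x (fun i => xx a i p)) + ∫ p : T1 × T1, y (fun i => xx a i p) := by
        intro a
        simp only [ContinuousMap.add_apply]
        exact integral_add (hint x a) (hint y a)
      have e2 : ∫ z, (x + y) z = (∫ z, x z) + ∫ z, y z := by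
        simp only [ContinuousMap.add_apply]
        exact integral_add (hint2 x) (hint2 y)
      simp_rw [e1]
      rw [e2]
      exact hx.add hy
    | smul c x _ hx =>
      have e1 : ∀ a : ℝ, ∫ p : T1 × T1, (c • x) (fun i => xx a i p) =
          c • (∫ p : T1 × T1, x (fun i => xx a i p)) := by
        intro a
        simp only [ContinuousMap.smul_apply]
        exact integral_smul c _
      have e2 : ∫ z, (c • x) z = c • (∫ z, x z) := by
        simp only [ContinuousMap.smul_apply]
        exact integral_smul c _
      simp_rw [e1]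
      rw [e2]
      exact hx.const_smul c
  rw [Metric.tendsto_nhds]
  intro ε hε
  have hF : F ∈ (Submodule.span ℂ
      (Set.range (UnitAddTorus.mFourier (d := Fin r)))).topologicalClosure := by
    rw [UnitAddTorus.span_mFourier_closure_eq_top]
    trivial
  obtain ⟨G, hG, hFG⟩ := Metric.mem_closure_iff.1 hF (ε / 4) (by positivity)
  rw [dist_eq_norm] at hFG
  have hGt := Metric.tendsto_nhds.1 (hsp G hG) (ε / 4) (by positivity)
  filter_upwards [hGt] with a ha
  rw [dist_eq_norm] at ha ⊢
  have b1 : ‖(∫ p : T1 × T1, F (fun i => xx a i p)) - ∫ p : T1 × T1, G (fun i => xx a i p)‖ ≤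
      ‖F - G‖ := by
    rw [← integral_sub (hint F a) (hint G a)]
    have := norm_integral_le_of_norm_le_const (μ := (volume : Measure (T1 × T1)))
      (f := fun p : T1 × T1 => F (fun i => xx a i p) - G (fun i => xx a i p)) (C := ‖F - G‖)
      (Eventually.of_forall fun p => (F - G).norm_coe_le_norm _)
    simpa using this
  have b2 : ‖(∫ z, F z) - ∫ z, G z‖ ≤ ‖F - G‖ := by
    rw [← integral_sub (hint2 F) (hint2 G)]
    have := norm_integral_le_of_norm_le_const (μ := (volume : Measure (Fin r → T1)))
      (f := fun z => F z - G z) (C := ‖F - G‖)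
      (Eventually.of_forall fun p => (F - G).norm_coe_le_norm _)
    simpa using this
  calc ‖(∫ p : T1 × T1, F (fun i => xx a i p)) - ∫ z, F z‖
      = ‖((∫ p : T1 × T1, F (fun i => xx a i p)) - ∫ p : T1 × T1, G (fun i => xx a i p)) +
          ((∫ p : T1 × T1, G (fun i => xx a i p)) - ∫ z, G z) -
          ((∫ z, F z) - ∫ z, G z)‖ := by congr 1; ring
    _ ≤ ‖(∫ p : T1 × T1, F (fun i => xx a i p)) - ∫ p : T1 × T1, G (fun i => xx a i p)‖ +
          ‖(∫ p : T1 × T1, G (fun i => xx a i p)) - ∫ z, G z‖ +
          ‖(∫ z, F z) - ∫ z, G z‖ := (norm_sub_le _ _).trans (by gcongr; exact norm_add_le _ _)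
    _ < ε := by linarith

end Pool.Agent.W806.MM
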